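import Pool.Agent.H8.Spiral2

namespace Pool.Agent.Results.MP_361b6b_co.Three
open Set Function Topology NNReal

/-- An arc: an injective continuous (hence homeomorphic) image of `[0,1]`. -/
def IsArc (A : Set ℂ) : Prop :=
  ∃ f : unitInterval → ℂ, Continuous f ∧ Injective f ∧ range f = A

/-- An unbounded simple curve: an unbounded homeomorphic image of `ℝ` or of `[0,∞)`. -/
def IsCurve (C : Set ℂ) : Prop := ¬ Bornology.IsBounded C ∧
  ((∃ f : ℝ → ℂ, IsEmbedding f ∧ range f = C) ∨ ∃ f : ℝ≥0 → ℂ, IsEmbedding f ∧ range f = C)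

/-- The images of the closed disk `T` under the countably many isometries `φ i` form a locally
finite tiling of the plane. -/
def IsTiling {ι : Type} (T : Set ℂ) (φ : ι → ℂ → ℂ) : Prop :=
  Countable ι ∧ IsClosed T ∧ Nonempty (T ≃ₜ Metric.closedBall (0 : ℂ) 1) ∧ (∀ i, Isometry (φ i)) ∧
    ⋃ i, φ i '' T = univ ∧
    (Pairwise fun i j => Disjoint (interior (φ i '' T)) (interior (φ j '' T))) ∧
    ∀ B, Bornology.IsBounded B → {i | (φ i '' T ∩ B).Nonempty}.Finite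

/-- `M` is a marking of `T` and the carried arcs make up finitely many unbounded simple curves. -/
def IsSpiral {ι : Type} (T : Set ℂ) (M : Set (Set ℂ)) (φ : ι → ℂ → ℂ) : Prop :=
  M.Finite ∧ M.Nonempty ∧ (∀ A ∈ M, IsArc A ∧ A ⊆ T) ∧
    ∃ C : Set (Set ℂ), C.Finite ∧ (∀ c ∈ C, IsCurve c) ∧ ⋃ i, φ i '' ⋃₀ M = ⋃₀ C

/-- A translation maps marked tile `i` onto marked tile `j`. -/
def SameAspect {ι : Type} (T : Set ℂ) (M : Set (Set ℂ)) (φ : ι → ℂ → ℂ) (i j : ι) : Prop :=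
  ∃ d : ℂ, (· + d) '' (φ i '' T) = φ j '' T ∧
    (fun A => (· + d) '' (φ i '' A)) '' M = (fun A => φ j '' A) '' M

open Pool.Agent.H8.Spiral in
theorem result : ∃ (ι : Type) (T : Set ℂ) (M : Set (Set ℂ)) (φ : ι → ℂ → ℂ),
    IsTiling T φ ∧ IsSpiral T M φ ∧
      ∃ a : ι → Fin 3, Surjective a ∧ ∀ i j, SameAspect T M φ i j ↔ a i = a j := by
  obtain ⟨γ, κ, k, g1, g2, -, g4⟩ := square one_pos
  have e : ∀ q, sq q = Icc (q.1 : ℝ) (q.1 + 1) ×ℂ Icc (q.2 : ℝ) (q.2 + 1) := fun q => by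
    ext; simp [H8.Spiral.sq, Complex.mem_reProdIm, and_assoc]
  have cl : IsClosed (sq 0) := e 0 ▸ isClosed_Icc.reProdIm isClosed_Icc
  refine ⟨_, sq 0, {segment ℝ 0 1}, fun q => rot (κ q) q, ⟨inferInstance, cl, ?_,
    fun q => rot_iso _ _, ?_, fun i j hij => ?_, fun B hB => ?_⟩, ⟨finite_singleton _,
      singleton_nonempty _, ?_, range fun j => range (γ j), finite_range _, ?_,
        by rwa [sUnion_singleton, sUnion_range]⟩, κ, k, fun i j => ⟨?_, fun h => ?_⟩⟩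
  · obtain ⟨h, -, h2, -⟩ := exists_homeomorph_image_interior_closure_frontier_eq_unitBall
      (s := sq 0) (fun x ⟨x1, x2, x3, x4⟩ y ⟨y1, y2, y3, y4⟩ a b ha hb h => by
        simp [H8.Spiral.sq] at *
        refine ⟨?_, ?_, ?_, ?_⟩ <;> nlinarith)
      ⟨⟨1 / 2, 1 / 2⟩, by simp [e, Complex.interior_reProdIm, Complex.mem_reProdIm]; norm_num⟩
      (e 0 ▸ (Metric.isBounded_Icc _ _).reProdIm (Metric.isBounded_Icc _ _))
    rw [cl.closure_eq] at h2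
    exact ⟨h2 ▸ h.image _⟩
  · exact eq_univ_of_forall fun z => mem_iUnion.2 ⟨(⌊z.re⌋, ⌊z.im⌋), (rot_sq _ _).ge
      ⟨Int.floor_le _, (Int.lt_floor_add_one _).le, Int.floor_le _, (Int.lt_floor_add_one _).le⟩⟩
  · simp only [rot_sq, e, Complex.interior_reProdIm, interior_Icc]
    refine disjoint_left.2 fun z ⟨⟨a, b⟩, c, d⟩ ⟨⟨a', b'⟩, c', d'⟩ => hij (Prod.ext ?_ ?_)
    · exact (Int.floor_eq_iff.2 ⟨a.le, b⟩).symm.trans (Int.floor_eq_iff.2 ⟨a'.le, b'⟩)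
    · exact (Int.floor_eq_iff.2 ⟨c.le, d⟩).symm.trans (Int.floor_eq_iff.2 ⟨c'.le, d'⟩)
  · obtain ⟨R, hR⟩ := hB.exists_norm_le
    refine (finite_Icc (-⌈R⌉ - 1, -⌈R⌉ - 1) (⌈R⌉, ⌈R⌉)).subset fun q ⟨z, h, hz⟩ => ?_
    rw [rot_sq] at h
    have := Int.le_ceil R
    have h1 := abs_le.1 ((Complex.abs_re_le_norm z).trans (hR z hz))
    have h2 := abs_le.1 ((Complex.abs_im_le_norm z).trans (hR z hz))
    refine ⟨⟨?_, ?_⟩, ?_, ?_⟩ <;> simp only <;> rw [← Int.cast_le (R := ℝ)] <;> push_cast <;>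
      linarith [h.1, h.2.1, h.2.2.1, h.2.2.2]
  · rintro _ rfl
    refine ⟨arc zero_ne_one, ?_⟩
    rintro _ ⟨a, b, ha, hb, h, rfl⟩
    simp [H8.Spiral.sq, hb]
    linarith
  · rintro _ ⟨j, rfl⟩
    exact ⟨g2 j, .inr ⟨_, (g1 j).isEmbedding, rfl⟩⟩
  · rintro ⟨d, h1, h2⟩
    simp only [rot_sq, image_singleton, singleton_eq_singleton_iff] at h1 h2
    obtain ⟨a1, -, a2, -⟩ := h1.subset ⟨⟨i.1, i.2⟩, by simp [H8.Spiral.sq], rfl⟩
    obtain ⟨z, ⟨b1, -, b2, -⟩, b⟩ := h1.symm.subset (show ⟨j.1, j.2⟩ ∈ sq j by simp [H8.Spiral.sq])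
    obtain ⟨_, ⟨s, t, hs, ht, h, rfl⟩, c⟩ := h2.subset
      ⟨_, ⟨_, ⟨1 / 2, 1 / 2, by norm_num, by norm_num, by norm_num, rfl⟩, rfl⟩, rfl⟩
    generalize κ i = x, κ j = y at c
    fin_cases x <;> fin_cases y <;> simp [rot, Complex.ext_iff] at a1 a2 b c ⊢ <;>
      linarith [b.1, b.2, c.1, c.2]
  · have : ∀ A, (· + (j.1 + j.2 * Complex.I - (i.1 + i.2 * Complex.I))) '' (rot (κ i) i '' A) =
        rot (κ j) j '' A := fun A => by
      rw [image_image, h]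
      congr 1
      ext
      simp only [rot]
      ring
    exact ⟨_, this _, by simp only [this]⟩

end Pool.Agent.Results.MP_361b6b_co.Three
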